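import Pool.Agent.Results.MP_2cbf68_an.NormMeasurable

/-!
# A measurable supremum norm which is far from every countable supremum of functionals

Stronger form of `NormMeasurable` (MP_2cbf68_an, Q1), for the same compact space `K`.  The supremum
norm of `C(K)` is measurable for the Baire σ-algebra of the weak topology, but for every countable
set `D` of functionals of norm at most one there is a nonnegative function `f` of norm one such that
all weak* limits of `D` are at most `2/3` in absolute value at `f`.  So `C(K)` does not embed into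
`ℓ^∞` with distortion less than `3/2`.
-/

set_option autoImplicit false

open MeasureTheory TopologicalSpace Set Filter Topology

namespace Pool.Agent.Results.MP_2cbf68_an.DistortionThreeHalves

open NormMeasurable
open Pool.Agent.Helper393.WB hiding dualBall

/-- No sequence of functionals in the dual ball takes values larger than `2/3` on all the coordinate
functions. -/
theorem no_seq' (φ : ℕ → StrongDual ℝ C(K, ℝ)) (hφ : ∀ n, ‖φ n‖ ≤ 1) :
    ∃ x : X, 0 < lam (G x) ∧ ∀ n, φ n (e x) ≤ 2 / 3 := by
  classical
  let A : ℕ → Set I := fun n => {α | ∃ x : X, x none = α ∧ 2 / 3 < φ n (e x)}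
  have hI : Infinite I := by
    by_contra hcon
    rw [not_infinite_iff_finite] at hcon
    exact uncountable_I (Set.to_countable _)
  have ha : ∀ n, ∃ a : ℕ → I, Function.Injective a ∧ ((A n).Infinite → ∀ j, a j ∈ A n) := by
    intro n
    by_cases hn : (A n).Infinite
    · exact ⟨fun j => (Set.Infinite.natEmbedding (A n) hn j : I),
        fun i j hij => (Set.Infinite.natEmbedding (A n) hn).injective (Subtype.ext hij),
        fun _ j => (Set.Infinite.natEmbedding (A n) hn j).2⟩
    · exact ⟨Infinite.natEmbedding I, (Infinite.natEmbedding I).injective, fun h => absurd h hn⟩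
  choose a hainj hamem using ha
  have hcnt : (⋃ n ∈ {n : ℕ | (A n).Finite}, A n).Countable := by
    refine Set.Countable.biUnion (Set.to_countable _) fun n hn => ?_
    exact Set.Finite.countable hn
  obtain ⟨α, hα⟩ : ∃ α : I, α ∉ ⋃ n ∈ {n : ℕ | (A n).Finite}, A n := by
    by_contra hcon
    push Not at hcon
    exact uncountable_I (hcnt.mono fun x _ => hcon x)
  let x : X := fun j => match j with
    | none => α
    | some (n, j) => a n j
  refine ⟨x, G_pos x fun n => ?_, fun n => ?_⟩
  · exact (hainj n).injOn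
  by_contra hcon
  push Not at hcon
  have hαA : α ∈ A n := ⟨x, rfl, hcon⟩
  have hinf : (A n).Infinite := by
    intro hfin
    exact hα (mem_biUnion (show n ∈ {n : ℕ | (A n).Finite} from hfin) hαA)
  have hex : ∀ j, ∃ x' : X, x' none = a n j ∧ 2 / 3 < φ n (e x') := fun j => hamem n hinf j
  choose w hw1 hw2 using hex
  set m := n + 6 with hm
  let g : C(K, ℝ) := ∑ j ∈ Finset.range m, e (w j) + ((m : ℝ) / 2) • e x
  have hmpos : (0 : ℝ) < m := by rw [hm]; positivity
  have hg1 : (m : ℝ) < φ n g := by
    have h1 : φ n g = ∑ j ∈ Finset.range m, φ n (e (w j)) + (m / 2) * φ n (e x) := by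
      simp only [g, map_add, map_sum, map_smul, smul_eq_mul]
    rw [h1]
    have h2 : (2 / 3 : ℝ) * m ≤ ∑ j ∈ Finset.range m, φ n (e (w j)) := by
      have := Finset.card_nsmul_le_sum (Finset.range m) (fun j => φ n (e (w j))) (2 / 3)
        (fun j _ => (hw2 j).le)
      rw [Finset.card_range, nsmul_eq_mul] at this
      linarith
    have h3 : (m : ℝ) / 2 * (2 / 3) < (m / 2) * φ n (e x) :=
      mul_lt_mul_of_pos_left hcon (by linarith)
    linarith
  have hg2 : (m : ℝ) < ‖g‖ := by
    refine lt_of_lt_of_le hg1 ((le_abs_self _).trans ?_)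
    calc |φ n g| ≤ ‖φ n‖ * ‖g‖ := (φ n).le_opNorm g
      _ ≤ 1 * ‖g‖ := mul_le_mul_of_nonneg_right (hφ n) (norm_nonneg _)
      _ = ‖g‖ := one_mul _
  obtain ⟨Z, hZ⟩ : ∃ Z : K, (m : ℝ) < |g Z| := by
    by_contra hcon2
    push Not at hcon2
    have : ‖g‖ ≤ m := (ContinuousMap.norm_le _ (by positivity)).2 hcon2
    linarith
  have hgZ : g Z = ((Finset.range m).filter fun j => Z.1 (w j) = true).card +
      (m / 2) * (if Z.1 x = true then 1 else 0) := by
    simp only [g, ContinuousMap.add_apply, ContinuousMap.sum_apply, ContinuousMap.smul_apply,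
      e_apply, smul_eq_mul, Finset.card_filter]
    push_cast
    rfl
  have hcard : (((Finset.range m).filter fun j => Z.1 (w j) = true).card : ℝ) ≤ m := by
    have := Finset.card_filter_le (Finset.range m) fun j => Z.1 (w j) = true
    rw [Finset.card_range] at this
    exact_mod_cast this
  rw [abs_of_nonneg (by rw [hgZ]; positivity), hgZ] at hZ
  have hZx : Z.1 x = true := by
    by_contra h
    rw [if_neg h] at hZ
    linarith
  rw [if_pos hZx, mul_one] at hZ
  have hcard2 : (m : ℝ) < 2 * (((Finset.range m).filter fun j => Z.1 (w j) = true).card : ℝ) := by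
    linarith
  have hcard3 : m < 2 * ((Finset.range m).filter fun j => Z.1 (w j) = true).card := by
    exact_mod_cast hcard2
  -- the finite centered family
  have hpos := Z.2 (insert x (((Finset.range m).filter fun j => Z.1 (w j) = true).image w)) (by
    intro v hv
    rw [Finset.mem_insert] at hv
    rcases hv with rfl | hv
    · exact hZx
    · obtain ⟨j, hj, rfl⟩ := Finset.mem_image.1 hv
      exact (Finset.mem_filter.1 hj).2)
  obtain ⟨y, hy⟩ := nonempty_of_measure_ne_zero hpos.ne'
  have hyx : y ∈ G x := hy x (Finset.mem_insert_self _ _)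
  have hblk := hyx.2 n
  have hsub : ((Finset.range m).filter fun j => Z.1 (w j) = true) ⊆
      (Finset.range m).filter fun j => y (x (some (n, j))) = true := by
    intro j hj
    rw [Finset.mem_filter] at hj ⊢
    refine ⟨hj.1, ?_⟩
    have hyw : y ∈ G (w j) := hy _ (Finset.mem_insert_of_mem
      (Finset.mem_image_of_mem w (Finset.mem_filter.2 hj)))
    have h1 : y (w j none) = true := hyw.1
    rw [hw1 j] at h1
    exact h1
  have := Finset.card_le_card hsub
  have hblk' : 2 * ((Finset.range m).filter fun j => y (x (some (n, j))) = true).card ≤ m := hblk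
  omega

/-- For every sequence in the dual ball there is a function of norm one with values in `{0, 1}` at
which all members of the sequence are at most `2/3` in absolute value. -/
theorem exists_fun (φ : ℕ → StrongDual ℝ C(K, ℝ)) (hφ : ∀ n, ‖φ n‖ ≤ 1) :
    ∃ f : C(K, ℝ), ‖f‖ = 1 ∧ (∀ Z, f Z = 0 ∨ f Z = 1) ∧ ∀ n, |φ n f| ≤ 2 / 3 := by
  classical
  obtain ⟨x, hx, h⟩ := no_seq' (fun n => if n % 2 = 0 then φ (n / 2) else -φ (n / 2))
    (fun n => by
      show ‖if n % 2 = 0 then φ (n / 2) else -φ (n / 2)‖ ≤ 1
      split_ifs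
      · exact hφ _
      · exact (ContinuousLinearMap.opNorm_neg _).trans_le (hφ _))
  have hK : ind {x} ∈ K := by
    intro T hT
    refine lt_of_lt_of_le hx (measure_mono ?_)
    intro y hy v hv
    have := (ind_apply _ _).1 (hT v hv)
    rw [Finset.mem_singleton] at this
    rw [this]; exact hy
  refine ⟨e x, ?_, fun Z => ?_, fun n => ?_⟩
  · apply le_antisymm
    · rw [ContinuousMap.norm_le _ zero_le_one]
      intro Z
      rw [e_apply]
      split_ifs <;> simp
    · calc (1 : ℝ) = e x ⟨ind {x}, hK⟩ := by rw [e_apply]; simp [ind]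
        _ ≤ ‖e x ⟨ind {x}, hK⟩‖ := Real.le_norm_self _
        _ ≤ _ := ContinuousMap.norm_coe_le_norm _ _
  · rw [e_apply]
    split_ifs
    · exact Or.inr rfl
    · exact Or.inl rfl
  · have h1 := h (2 * n)
    have h2 := h (2 * n + 1)
    have e1 : (2 * n) % 2 = 0 := by omega
    have e2 : (2 * n) / 2 = n := by omega
    have e3 : ¬ (2 * n + 1) % 2 = 0 := by omega
    have e4 : (2 * n + 1) / 2 = n := by omega
    simp only [e1, e2, if_true] at h1
    simp only [e3, e4, if_false] at h2
    have h3 : (-φ n) (e x) = -(φ n (e x)) := rfl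
    rw [h3] at h2
    rw [abs_le]
    constructor <;> linarith

/-- For every countable set `D` of functionals of norm at most one there is a function `f` of norm
one with values in `{0, 1}` such that `|φ f| ≤ 2/3` for all `φ` in the weak* closure of `D`. -/
def FarFromCountable (K : Type) [TopologicalSpace K] [CompactSpace K] : Prop :=
  ∀ D : Set (WeakDual ℝ C(K, ℝ)), D.Countable → D ⊆ dualBall C(K, ℝ) →
    ∃ f : C(K, ℝ), ‖f‖ = 1 ∧ (∀ t, f t = 0 ∨ f t = 1) ∧ ∀ φ ∈ closure D, |φ f| ≤ 2 / 3

/-- For every linear map `T : C(K) → ℓ^∞` with `‖T f‖ ≤ C ‖f‖` for all `f` there is a function `f` of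
norm one with values in `{0, 1}` such that `‖T f‖ ≤ (2/3) C`.  (A bounded linear map into `ℓ^∞` is
written as a linear map into the space of all sequences which satisfies this bound coordinatewise.)
-/
def FarFromEllInfty (K : Type) [TopologicalSpace K] [CompactSpace K] : Prop :=
  ∀ (T : C(K, ℝ) →ₗ[ℝ] (ℕ → ℝ)) (C : ℝ), 0 ≤ C → (∀ f n, |T f n| ≤ C * ‖f‖) →
    ∃ f : C(K, ℝ), ‖f‖ = 1 ∧ (∀ t, f t = 0 ∨ f t = 1) ∧ ∀ n, |T f n| ≤ 2 / 3 * C

/-- **Main theorem.** There is a compact Hausdorff space `K` such that the supremum norm of `C(K)`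
is measurable for the Baire σ-algebra of the weak topology, while: (a) for every countable set `D` of
functionals of norm at most one there is a function `f` of norm one with values in `{0, 1}` such that
`|φ f| ≤ 2/3` for all `φ` in the weak* closure of `D`; (b) for every bounded operator
`T : C(K) → ℓ^∞` there is such an `f` with `‖T f‖ ≤ (2/3) ‖T‖`, so `C(K)` does not embed into `ℓ^∞`
with distortion less than `3/2`; (c) in particular the closed unit ball of the dual of `C(K)` is not
weak* separable. -/
theorem result :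
    ∃ (K : Type) (_ : TopologicalSpace K) (_ : CompactSpace K) (_ : T2Space K),
      Measurable[weakBaire C(K, ℝ), borel ℝ] (fun f : C(K, ℝ) => ‖f‖) ∧
      Measurable[functionalSigma C(K, ℝ), borel ℝ] (fun f : C(K, ℝ) => ‖f‖) ∧
      FarFromCountable K ∧ FarFromEllInfty K ∧ ¬ SeparableSpace (dualBall C(K, ℝ)) := by
  refine ⟨K, inferInstance, inferInstance, inferInstance,
    norm_measurable_cyl.mono (functionalSigma_le _) le_rfl, norm_measurable_cyl, ?_, ?_,
    not_separable⟩
  · intro D hD hDb
    rcases D.eq_empty_or_nonempty with rfl | hne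
    · obtain ⟨f, hf1, hf2, -⟩ := exists_fun (fun _ => 0)
        (fun _ => ContinuousLinearMap.opNorm_zero.trans_le zero_le_one)
      exact ⟨f, hf1, hf2, by simp⟩
    · obtain ⟨ψ, hψ⟩ := hD.exists_eq_range hne
      obtain ⟨f, hf1, hf2, hf3⟩ := exists_fun (fun n => WeakDual.toStrongDual (ψ n))
        (fun n => hDb (hψ ▸ mem_range_self n))
      refine ⟨f, hf1, hf2, fun φ hφ => ?_⟩
      have hcl : IsClosed {φ : WeakDual ℝ C(K, ℝ) | |φ f| ≤ 2 / 3} :=
        isClosed_le ((WeakDual.eval_continuous f).abs) continuous_const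
      have hsub : D ⊆ {φ : WeakDual ℝ C(K, ℝ) | |φ f| ≤ 2 / 3} := by
        rw [hψ]
        rintro _ ⟨n, rfl⟩
        exact hf3 n
      exact closure_minimal hsub hcl hφ
  · intro T C hC hT
    rcases hC.eq_or_lt with h0 | hpos
    · obtain ⟨f, hf1, hf2, -⟩ := exists_fun (fun _ => 0)
        (fun _ => ContinuousLinearMap.opNorm_zero.trans_le zero_le_one)
      refine ⟨f, hf1, hf2, fun n => ?_⟩
      have := hT f n
      rw [← h0, zero_mul] at this
      rw [← h0, mul_zero]
      exact this
    · have hb : ∀ n, ∀ f : C(K, ℝ), ‖(C⁻¹ • (LinearMap.proj n).comp T) f‖ ≤ 1 * ‖f‖ := by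
        intro n f
        rw [one_mul, LinearMap.smul_apply, smul_eq_mul, Real.norm_eq_abs, abs_mul,
          abs_of_pos (inv_pos.2 hpos), inv_mul_le_iff₀ hpos]
        exact hT f n
      obtain ⟨f, hf1, hf2, hf3⟩ := exists_fun
        (fun n => LinearMap.mkContinuous (C⁻¹ • (LinearMap.proj n).comp T) 1 (hb n))
        (fun n => LinearMap.mkContinuous_norm_le _ zero_le_one _)
      refine ⟨f, hf1, hf2, fun n => ?_⟩
      have h1 := hf3 n
      have h2 : (LinearMap.mkContinuous (C⁻¹ • (LinearMap.proj n).comp T) 1 (hb n)) f =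
        C⁻¹ * T f n := rfl
      rw [h2, abs_mul, abs_of_pos (inv_pos.2 hpos), inv_mul_le_iff₀ hpos, mul_comm] at h1
      exact h1

end Pool.Agent.Results.MP_2cbf68_an.DistortionThreeHalves
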