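import Pool.Agent.Helper393.WB.F

/-!
# The supremum norm can be Baire measurable on many non-separable function spaces

There is a compact Hausdorff space `K` such that for every nonempty separable compact Hausdorff
space `L` the supremum norm of `C(K × L)` is measurable for the σ-algebra generated by the
functionals, while the closed unit ball of the dual of `C(K × L)` is not weak* separable.
-/

set_option autoImplicit false

open MeasureTheory TopologicalSpace

namespace Pool.Agent.Results.MP_2cbf68_an.ProductsWithSeparable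

/-- The σ-algebra on the Banach space `E` generated by all continuous linear functionals. -/
@[instance_reducible]
def functionalSigma (E : Type) [NormedAddCommGroup E] [NormedSpace ℝ E] : MeasurableSpace E :=
  ⨆ φ : StrongDual ℝ E, MeasurableSpace.comap φ (borel ℝ)

/-- `Ba(E, w)`: the smallest σ-algebra on the Banach space `E` making every weakly continuous real
function on `E` measurable. -/
@[instance_reducible]
def weakBaire (E : Type) [NormedAddCommGroup E] [NormedSpace ℝ E] : MeasurableSpace E :=
  ⨆ g : {g : E → ℝ // Continuous fun x : WeakSpace ℝ E => g ((toWeakSpace ℝ E).symm x)},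
    MeasurableSpace.comap g.1 (borel ℝ)

/-- The closed unit ball of the dual space of `E`, a subset of the dual with the weak* topology. -/
def dualBall (E : Type) [NormedAddCommGroup E] [NormedSpace ℝ E] : Set (WeakDual ℝ E) :=
  {φ | ‖WeakDual.toStrongDual φ‖ ≤ 1}

theorem functionalSigma_le (E : Type) [NormedAddCommGroup E] [NormedSpace ℝ E] :
    functionalSigma E ≤ weakBaire E := by
  refine iSup_le fun φ => ?_
  exact le_iSup (fun g : {g : E → ℝ // Continuous fun x : WeakSpace ℝ E =>
    g ((toWeakSpace ℝ E).symm x)} => MeasurableSpace.comap g.1 (borel ℝ))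
    ⟨φ, WeakBilin.eval_continuous (topDualPairing ℝ E).flip φ⟩

/-- bounded operators are measurable for the σ-algebras generated by the functionals -/
theorem measurable_op {E F : Type} [NormedAddCommGroup E] [NormedSpace ℝ E]
    [NormedAddCommGroup F] [NormedSpace ℝ F] (T : E →L[ℝ] F) :
    Measurable[functionalSigma E, functionalSigma F] T := by
  rw [measurable_iff_comap_le]
  unfold functionalSigma
  rw [MeasurableSpace.comap_iSup]
  refine iSup_le fun φ => ?_
  rw [MeasurableSpace.comap_comp]
  exact le_iSup (fun ψ : StrongDual ℝ E => MeasurableSpace.comap ψ (borel ℝ)) (φ.comp T)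

section

variable {K L : Type} [TopologicalSpace K] [CompactSpace K] [TopologicalSpace L] [CompactSpace L]

/-- restriction to the slice `K × {l}` -/
noncomputable def slice (l : L) : C(K × L, ℝ) →L[ℝ] C(K, ℝ) :=
  ⟨(ContinuousMap.compRightAlgHom ℝ ℝ (⟨fun k => (k, l), by fun_prop⟩ : C(K, K × L))).toLinearMap,
    ContinuousMap.continuous_precomp _⟩

/-- functions of the first variable -/
noncomputable def pull : C(K, ℝ) →L[ℝ] C(K × L, ℝ) :=
  ⟨(ContinuousMap.compRightAlgHom ℝ ℝ (⟨Prod.fst, continuous_fst⟩ : C(K × L, K))).toLinearMap,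
    ContinuousMap.continuous_precomp _⟩

theorem norm_le_iff (d : ℕ → L) (hd : DenseRange d) (f : C(K × L, ℝ)) (a : ℝ) :
    ‖f‖ ≤ a ↔ ∀ n, ‖slice (d n) f‖ ≤ a := by
  constructor
  · intro h n
    refine le_trans ?_ h
    rw [ContinuousMap.norm_le _ (norm_nonneg f)]
    intro k
    exact f.norm_coe_le_norm (k, d n)
  · intro h
    have ha : 0 ≤ a := (norm_nonneg _).trans (h 0)
    rw [ContinuousMap.norm_le _ ha]
    rintro ⟨k, l⟩
    have hc : IsClosed {l : L | ‖f (k, l)‖ ≤ a} :=
      isClosed_le (by fun_prop) continuous_const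
    have hr : Set.range d ⊆ {l : L | ‖f (k, l)‖ ≤ a} := by
      rintro _ ⟨n, rfl⟩
      exact ((slice (d n) f).norm_coe_le_norm k).trans (h n)
    exact hc.closure_subset_iff.2 hr (hd l)

theorem norm_measurable (hK : Measurable[functionalSigma C(K, ℝ), borel ℝ] (fun f : C(K, ℝ) => ‖f‖))
    [SeparableSpace L] [Nonempty L] :
    Measurable[functionalSigma C(K × L, ℝ), borel ℝ] (fun f : C(K × L, ℝ) => ‖f‖) := by
  let _ : MeasurableSpace C(K × L, ℝ) := functionalSigma C(K × L, ℝ)
  have h1 : ∀ a : ℝ, MeasurableSet ((fun f : C(K × L, ℝ) => ‖f‖) ⁻¹' Set.Iic a) := by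
    intro a
    have h2 : (fun f : C(K × L, ℝ) => ‖f‖) ⁻¹' Set.Iic a =
        ⋂ n : ℕ, (fun f : C(K × L, ℝ) => ‖slice (denseSeq L n) f‖) ⁻¹' Set.Iic a := by
      ext f
      simp only [Set.mem_preimage, Set.mem_Iic, Set.mem_iInter]
      exact norm_le_iff (denseSeq L) (denseRange_denseSeq L) f a
    rw [h2]
    refine MeasurableSet.iInter fun n => ?_
    have h3 : Measurable[functionalSigma C(K × L, ℝ), borel ℝ]
        (fun f : C(K × L, ℝ) => ‖slice (denseSeq L n) f‖) := hK.comp (measurable_op _)
    exact h3 (show @MeasurableSet ℝ (borel ℝ) (Set.Iic a) from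
      (measurableSet_Iic : @MeasurableSet ℝ Real.measurableSpace (Set.Iic a)))
  have h4 : @Measurable _ _ _ (borel ℝ) (fun f : C(K × L, ℝ) => ‖f‖) := by
    have := measurable_of_Iic (f := fun f : C(K × L, ℝ) => ‖f‖) h1
    rwa [BorelSpace.measurable_eq (α := ℝ)] at this
  exact h4

theorem not_separable [Nonempty L] (hK : ¬ SeparableSpace (dualBall C(K, ℝ))) :
    ¬ SeparableSpace (dualBall C(K × L, ℝ)) := by
  intro h
  apply hK
  obtain ⟨l⟩ := ‹Nonempty L›
  have hpull : ∀ g : C(K, ℝ), ‖(pull g : C(K × L, ℝ))‖ ≤ ‖g‖ := by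
    intro g
    rw [ContinuousMap.norm_le _ (norm_nonneg g)]
    rintro ⟨k, l⟩
    exact g.norm_coe_le_norm k
  have hslice : ∀ f : C(K × L, ℝ), ‖slice l f‖ ≤ ‖f‖ := by
    intro f
    rw [ContinuousMap.norm_le _ (norm_nonneg f)]
    intro k
    exact f.norm_coe_le_norm (k, l)
  let Φ : dualBall C(K × L, ℝ) → dualBall C(K, ℝ) := fun φ =>
    ⟨StrongDual.toWeakDual ((WeakDual.toStrongDual φ.1).comp pull), by
      change ‖(WeakDual.toStrongDual φ.1).comp pull‖ ≤ 1
      refine ContinuousLinearMap.opNorm_le_bound _ zero_le_one fun g => ?_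
      rw [one_mul]
      refine ((WeakDual.toStrongDual φ.1).le_opNorm _).trans ?_
      have h1 : ‖WeakDual.toStrongDual φ.1‖ ≤ 1 := φ.2
      calc ‖WeakDual.toStrongDual φ.1‖ * ‖(pull g : C(K × L, ℝ))‖ ≤ 1 * ‖g‖ :=
            mul_le_mul h1 (hpull g) (norm_nonneg _) zero_le_one
        _ = ‖g‖ := one_mul _⟩
  have hΦ : Continuous Φ := by
    refine Continuous.subtype_mk ?_ _
    refine WeakBilin.continuous_of_continuous_eval _ fun g => ?_
    exact (WeakDual.eval_continuous (pull g : C(K × L, ℝ))).comp continuous_subtype_val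
  have hs : Function.Surjective Φ := by
    intro ψ
    refine ⟨⟨StrongDual.toWeakDual ((WeakDual.toStrongDual ψ.1).comp (slice l)), ?_⟩, ?_⟩
    · change ‖(WeakDual.toStrongDual ψ.1).comp (slice l)‖ ≤ 1
      refine ContinuousLinearMap.opNorm_le_bound _ zero_le_one fun g => ?_
      rw [one_mul]
      refine ((WeakDual.toStrongDual ψ.1).le_opNorm _).trans ?_
      have h1 : ‖WeakDual.toStrongDual ψ.1‖ ≤ 1 := ψ.2
      calc ‖WeakDual.toStrongDual ψ.1‖ * ‖slice l g‖ ≤ 1 * ‖g‖ :=
            mul_le_mul h1 (hslice g) (norm_nonneg _) zero_le_one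
        _ = ‖g‖ := one_mul _
    · apply Subtype.ext
      refine DFunLike.ext _ _ fun g => ?_
      rfl
  exact hs.denseRange.separableSpace hΦ

end

/-- There is a compact Hausdorff space `K` such that for every nonempty separable compact Hausdorff
space `L` the supremum norm of `C(K × L)` is measurable for the Baire σ-algebra of the weak topology
(even for the σ-algebra generated by the functionals), while the closed unit ball of the dual of
`C(K × L)` is not weak* separable. -/
theorem result :
    ∃ (K : Type) (_ : TopologicalSpace K) (_ : CompactSpace K) (_ : T2Space K),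
      ∀ (L : Type) (_ : TopologicalSpace L) (_ : CompactSpace L) (_ : T2Space L)
        (_ : SeparableSpace L) (_ : Nonempty L),
      Measurable[weakBaire C(K × L, ℝ), borel ℝ] (fun f : C(K × L, ℝ) => ‖f‖) ∧
      Measurable[functionalSigma C(K × L, ℝ), borel ℝ] (fun f : C(K × L, ℝ) => ‖f‖) ∧
      ¬ SeparableSpace (dualBall C(K × L, ℝ)) := by
  refine ⟨Pool.Agent.Helper393.WB.K, inferInstance, inferInstance, inferInstance, ?_⟩
  intro L _ _ _ _ _
  have h1 : Measurable[functionalSigma C(Pool.Agent.Helper393.WB.K × L, ℝ), borel ℝ]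
      (fun f : C(Pool.Agent.Helper393.WB.K × L, ℝ) => ‖f‖) :=
    norm_measurable Pool.Agent.Helper393.WB.norm_measurable_cyl
  exact ⟨h1.mono (functionalSigma_le _) le_rfl, h1,
    not_separable Pool.Agent.Helper393.WB.not_separable⟩

end Pool.Agent.Results.MP_2cbf68_an.ProductsWithSeparable
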